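import Pool.Agent.W229.HD.Stm

/-!
# Project HD, subtask HD-TRI: only heterochiral triads produce the `H^(1/2)` norm
-/

set_option autoImplicit false

namespace Pool.Agent.W143.HD

open Pool.Agent.W229.HD

noncomputable section

/-! ### vector algebra -/

theorem dt3 (v w : E3) : dt v w = v 0 * w 0 + v 1 * w 1 + v 2 * w 2 := by
  unfold dt
  rw [Fin.sum_univ_three]

theorem cr0 (v w : E3) : cr v w 0 = v 1 * w 2 - v 2 * w 1 := rfl
theorem cr1 (v w : E3) : cr v w 1 = v 2 * w 0 - v 0 * w 2 := rfl
theorem cr2 (v w : E3) : cr v w 2 = v 0 * w 1 - v 1 * w 0 := rfl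

/-- the determinant -/
def D (u v z : E3) : ℂ := dt (cr u v) z

theorem D_eq (u v z : E3) : D u v z = (u 1 * v 2 - u 2 * v 1) * z 0 + (u 2 * v 0 - u 0 * v 2) * z 1
    + (u 0 * v 1 - u 1 * v 0) * z 2 := by
  unfold D
  rw [dt3, cr0, cr1, cr2]

theorem D_swap12 (u v z : E3) : D v u z = -D u v z := by rw [D_eq, D_eq]; ring
theorem D_swap23 (u v z : E3) : D u z v = -D u v z := by rw [D_eq, D_eq]; ring
theorem D_swap13 (u v z : E3) : D z v u = -D u v z := by rw [D_eq, D_eq]; ring

theorem D_add1 (u u' v z : E3) : D (u + u') v z = D u v z + D u' v z := by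
  simp only [D_eq, PiLp.add_apply]; ring
theorem D_smul1 (c : ℂ) (u v z : E3) : D (c • u) v z = c * D u v z := by
  simp only [D_eq, PiLp.smul_apply, smul_eq_mul]; ring
theorem D_add2 (u v v' z : E3) : D u (v + v') z = D u v z + D u v' z := by
  simp only [D_eq, PiLp.add_apply]; ring

theorem D_zero1 (v z : E3) : D 0 v z = 0 := by simp [D_eq]
theorem D_zero2 (u z : E3) : D u 0 z = 0 := by simp [D_eq]
theorem D_zero3 (u v : E3) : D u v 0 = 0 := by simp [D_eq]

theorem dt_zero_left (v : E3) : dt 0 v = 0 := by simp [dt3]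
theorem dt_zero_right (v : E3) : dt v 0 = 0 := by simp [dt3]
theorem dt_comm (v w : E3) : dt v w = dt w v := by rw [dt3, dt3]; ring
theorem dt_add_right (v w w' : E3) : dt v (w + w') = dt v w + dt v w' := by
  simp only [dt3, PiLp.add_apply]; ring
theorem dt_add_left (v v' w : E3) : dt (v + v') w = dt v w + dt v' w := by
  simp only [dt3, PiLp.add_apply]; ring
theorem dt_smul_left (c : ℂ) (v w : E3) : dt (c • v) w = c * dt v w := by
  simp only [dt3, PiLp.smul_apply, smul_eq_mul]; ring

theorem dt_sum_left {ι : Type} (s : Finset ι) (f : ι → E3) (w : E3) :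
    dt (∑ i ∈ s, f i) w = ∑ i ∈ s, dt (f i) w := by
  classical
  induction s using Finset.induction_on with
  | empty => simp [dt_zero_left]
  | insert a s ha ih => rw [Finset.sum_insert ha, Finset.sum_insert ha, dt_add_left, ih]

theorem cr_add_right (v w w' : E3) : cr v (w + w') = cr v w + cr v w' := by
  ext i
  fin_cases i
  · show cr v (w + w') 0 = (cr v w + cr v w') 0
    simp only [cr0, PiLp.add_apply]; ring
  · show cr v (w + w') 1 = (cr v w + cr v w') 1
    simp only [cr1, PiLp.add_apply]; ring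
  · show cr v (w + w') 2 = (cr v w + cr v w') 2
    simp only [cr2, PiLp.add_apply]; ring

/-- the vector identity behind the Lamb form -/
theorem lamb (l a c z : E3) :
    D (Complex.I • cr l a) c z = Complex.I * dt a z * dt l c - Complex.I * dt l z * dt a c := by
  rw [D_smul1, D_eq, cr0, cr1, cr2, dt3, dt3, dt3, dt3]
  ring

theorem kc_neg_add (x y : K3) : kc (-(x + y)) = -kc x - kc y := by
  ext i
  simp [kc]
  ring

theorem nm_neg (k : K3) : nm (-k) = nm k := by simp [nm]

theorem nm_nonneg (k : K3) : 0 ≤ nm k := Real.sqrt_nonneg _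

/-! ### sums over triads -/

/-- sums over the triads -/
def T {R : Type} [AddCommMonoid R] (S : Finset K3) (Φ : K3 → K3 → K3 → R) : R :=
  ∑ x ∈ S, ∑ y ∈ S, Φ x y (-(x + y))

/-- vanishing off `S` -/
def Van {R : Type} [Zero R] (S : Finset K3) (Φ : K3 → K3 → K3 → R) : Prop :=
  ∀ x y z, (x ∉ S ∨ y ∉ S ∨ z ∉ S) → Φ x y z = 0

theorem T_congr {R : Type} [AddCommMonoid R] {S : Finset K3} {Φ Ψ : K3 → K3 → K3 → R}
    (h : ∀ x y z, x ∈ S → y ∈ S → z = -(x + y) → Φ x y z = Ψ x y z) : T S Φ = T S Ψ :=
  Finset.sum_congr rfl fun x hx => Finset.sum_congr rfl fun y hy => h x y _ hx hy rfl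

theorem T_swap12 {R : Type} [AddCommMonoid R] {S : Finset K3} (Φ : K3 → K3 → K3 → R) :
    T S Φ = T S fun x y z => Φ y x z := by
  unfold T
  rw [Finset.sum_comm]
  refine Finset.sum_congr rfl fun x _ => Finset.sum_congr rfl fun y _ => ?_
  rw [add_comm]

theorem T_swap23 {R : Type} [AddCommMonoid R] {S : Finset K3} (Φ : K3 → K3 → K3 → R)
    (h : Van S Φ) : T S Φ = T S fun x y z => Φ x z y := by
  unfold T
  refine Finset.sum_congr rfl fun x _ => ?_
  have e1 : ∑ y ∈ S, Φ x y (-(x + y)) = ∑ y ∈ S.filter (fun y => -(x + y) ∈ S),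
      Φ x y (-(x + y)) := by
    rw [Finset.sum_filter]
    refine Finset.sum_congr rfl fun y _ => ?_
    split_ifs with hy
    · rfl
    · exact h x y _ (Or.inr (Or.inr hy))
  have e2 : ∑ y ∈ S, Φ x (-(x + y)) y = ∑ y ∈ S.filter (fun y => -(x + y) ∈ S),
      Φ x (-(x + y)) y := by
    rw [Finset.sum_filter]
    refine Finset.sum_congr rfl fun y _ => ?_
    split_ifs with hy
    · rfl
    · exact h x _ y (Or.inr (Or.inl hy))
  have hinv : ∀ y : K3, -(x + -(x + y)) = y := fun y => by abel
  rw [e1, e2]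
  refine Finset.sum_nbij' (fun y => -(x + y)) (fun y => -(x + y)) ?_ ?_ ?_ ?_ ?_
  · intro y hy
    rw [Finset.mem_filter] at hy ⊢
    rw [hinv]
    exact ⟨hy.2, hy.1⟩
  · intro y hy
    rw [Finset.mem_filter] at hy ⊢
    rw [hinv]
    exact ⟨hy.2, hy.1⟩
  · intro y _; exact hinv y
  · intro y _; exact hinv y
  · intro y _
    rw [hinv]

theorem T_swap13 {R : Type} [AddCommMonoid R] {S : Finset K3} (Φ : K3 → K3 → K3 → R)
    (h : Van S Φ) : T S Φ = T S fun x y z => Φ z y x := by
  rw [T_swap12 Φ, T_swap23 (fun x y z => Φ y x z) (fun x y z hh => h y x z (by tauto)),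
    T_swap12 (fun x y z => Φ z x y)]

theorem T_add {S : Finset K3} (Φ Ψ : K3 → K3 → K3 → ℂ) :
    T S (fun x y z => Φ x y z + Ψ x y z) = T S Φ + T S Ψ := by
  unfold T
  rw [← Finset.sum_add_distrib]
  exact Finset.sum_congr rfl fun x _ => Finset.sum_add_distrib

theorem T_neg {S : Finset K3} (Φ : K3 → K3 → K3 → ℂ) :
    T S (fun x y z => -Φ x y z) = -T S Φ := by
  unfold T
  rw [← Finset.sum_neg_distrib]
  exact Finset.sum_congr rfl fun x _ => Finset.sum_neg_distrib _

theorem T_sub {S : Finset K3} (Φ Ψ : K3 → K3 → K3 → ℂ) :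
    T S (fun x y z => Φ x y z - Ψ x y z) = T S Φ - T S Ψ := by
  rw [sub_eq_add_neg, ← T_neg, ← T_add]
  rfl

theorem T_norm {S : Finset K3} (Φ : K3 → K3 → K3 → ℂ) :
    ‖T S Φ‖ ≤ T S fun x y z => ‖Φ x y z‖ := by
  unfold T
  exact (norm_sum_le _ _).trans (Finset.sum_le_sum fun x _ => norm_sum_le _ _)

theorem T_zero {S : Finset K3} : T S (fun _ _ _ => (0 : ℂ)) = 0 := by simp [T]

/-! ### the theorem -/

section main

variable {S : Finset K3} {a : K3 → E3} (hHEL : S_HEL) (hS : Fr S) (ha : Fld S a)

/-- helical parts -/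
def H (a : K3 → E3) (s : Bool) (k : K3) : E3 := hel s k (a k)

theorem hel_zero (s : Bool) (k : K3) : hel s k 0 = 0 := by
  have h1 : cr (kc k) 0 = 0 := by
    ext i
    fin_cases i
    · show cr (kc k) 0 0 = 0
      simp [cr0]
    · show cr (kc k) 0 1 = 0
      simp [cr1]
    · show cr (kc k) 0 2 = 0
      simp [cr2]
  unfold hel
  rw [dt_zero_right, h1]
  simp

include ha in
theorem H_off (s : Bool) {k : K3} (hk : k ∉ S) : H a s k = 0 := by
  unfold H
  rw [ha.supp k hk, hel_zero]

include hS in
theorem ne_zero {k : K3} (hk : k ∈ S) : k ≠ 0 := fun h => hS.zero (h ▸ hk)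

include hHEL hS ha in
theorem H_sum (k : K3) : H a true k + H a false k = a k := by
  by_cases hk : k ∈ S
  · exact (hHEL true k (ne_zero hS hk) (a k) 0 0).2.2.2.2.2.2.1 (ha.div k)
  · rw [H_off ha true hk, H_off ha false hk, ha.supp k hk, add_zero]

include hHEL hS in
theorem H_div (s : Bool) {k : K3} (hk : k ∈ S) : dt (kc k) (H a s k) = 0 :=
  (hHEL s k (ne_zero hS hk) (a k) 0 0).2.2.1

include hHEL hS ha in
/-- the vorticity -/
theorem vort {l : K3} (hl : l ∈ S) : Complex.I • cr (kc l) (a l) =
    ((nm l : ℝ) : ℂ) • H a true l + (-((nm l : ℝ) : ℂ)) • H a false l := by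
  have h1 := (hHEL true l (ne_zero hS hl) (a l) 0 0).2.2.2.1
  have h2 := (hHEL false l (ne_zero hS hl) (a l) 0 0).2.2.2.1
  have h3 : cr (kc l) (a l) = cr (kc l) (H a true l) + cr (kc l) (H a false l) := by
    rw [← cr_add_right, H_sum hHEL hS ha]
  rw [h3]
  unfold H
  rw [h1, h2, smul_add, smul_smul, smul_smul]
  have e1 : Complex.I * -(Complex.I * ((sg true * nm l : ℝ) : ℂ)) = ((nm l : ℝ) : ℂ) := by
    have : sg true = 1 := rfl
    rw [this, one_mul]
    linear_combination (-((nm l : ℝ) : ℂ)) * Complex.I_mul_I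
  have e2 : Complex.I * -(Complex.I * ((sg false * nm l : ℝ) : ℂ)) = -((nm l : ℝ) : ℂ) := by
    have : sg false = -1 := rfl
    rw [this]
    push_cast
    linear_combination (((nm l : ℝ) : ℂ)) * Complex.I_mul_I
  rw [e1, e2]

/-- production by the helical part of sign `s` -/
def P (S : Finset K3) (a : K3 → E3) (s : Bool) : ℂ :=
  ∑ k ∈ S, ((nm k : ℝ) : ℂ) * dt (cv S a k) (H a s (-k))

include hHEL hS ha in
theorem Pr_eq : Pr S 1 a = (P S a true + P S a false).re := by
  unfold Pr P
  rw [← Finset.sum_add_distrib]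
  congr 1
  refine Finset.sum_congr rfl fun k _ => ?_
  rw [Real.rpow_one, ← H_sum hHEL hS ha (-k), dt_add_right]
  ring

include hS in
theorem P_T (s : Bool) : P S a s = T S fun n l m =>
    ((nm n : ℝ) : ℂ) * (Complex.I * dt (a l) (kc m) * dt (a m) (H a s n)) := by
  unfold P T
  have h1 : ∑ k ∈ S, ((nm k : ℝ) : ℂ) * dt (cv S a k) (H a s (-k)) =
      ∑ n ∈ S, ((nm (-n) : ℝ) : ℂ) * dt (cv S a (-n)) (H a s n) := by
    refine Finset.sum_nbij' (fun k => -k) (fun k => -k) (fun k hk => hS.neg k hk)
      (fun k hk => hS.neg k hk) (fun k _ => neg_neg k) (fun k _ => neg_neg k) (fun k _ => ?_)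
    rw [neg_neg]
  rw [h1]
  refine Finset.sum_congr rfl fun n _ => ?_
  unfold cv
  rw [dt_sum_left, Finset.mul_sum, nm_neg]
  refine Finset.sum_congr rfl fun l _ => ?_
  have e : -n - l = -(n + l) := by abel
  rw [dt_smul_left, e]

include hHEL hS ha in
/-- Lamb form -/
theorem P_lamb (s : Bool) : P S a s = T S fun n l m =>
    ((nm n : ℝ) : ℂ) * D (Complex.I • cr (kc l) (a l)) (a m) (H a s n) := by
  have h1 : T S (fun n l m =>
      ((nm n : ℝ) : ℂ) * D (Complex.I • cr (kc l) (a l)) (a m) (H a s n)) =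
      T S (fun n l m => ((nm n : ℝ) : ℂ) * (Complex.I * dt (a l) (H a s n) * dt (kc l) (a m))) -
      T S (fun n l m => ((nm n : ℝ) : ℂ) * (Complex.I * dt (kc l) (H a s n) * dt (a l) (a m))) := by
    rw [← T_sub]
    refine T_congr fun n l m _ _ _ => ?_
    beta_reduce
    rw [lamb]
    ring
  have h2 : T S (fun n l m =>
      ((nm n : ℝ) : ℂ) * (Complex.I * dt (a l) (H a s n) * dt (kc l) (a m))) = P S a s := by
    rw [P_T hS, T_swap23]
    · refine T_congr fun n l m _ _ _ => ?_
      beta_reduce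
      rw [dt_comm (kc m) (a l)]
      ring
    · intro x y z hh
      beta_reduce
      rcases hh with hh | hh | hh
      · rw [H_off ha s hh, dt_zero_right]; ring
      · rw [ha.supp y hh, dt_zero_left]; ring
      · rw [ha.supp z hh, dt_zero_right]; ring
  have h3 : T S (fun n l m =>
      ((nm n : ℝ) : ℂ) * (Complex.I * dt (kc l) (H a s n) * dt (a l) (a m))) = 0 := by
    have e1 : T S (fun n l m =>
        ((nm n : ℝ) : ℂ) * (Complex.I * dt (kc l) (H a s n) * dt (a l) (a m))) =
        T S (fun n l m =>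
        ((nm n : ℝ) : ℂ) * (Complex.I * dt (kc m) (H a s n) * dt (a m) (a l))) := by
      rw [T_swap23]
      intro x y z hh
      beta_reduce
      rcases hh with hh | hh | hh
      · rw [H_off ha s hh, dt_zero_right]; ring
      · rw [ha.supp y hh, dt_zero_left]; ring
      · rw [ha.supp z hh, dt_zero_right]; ring
    have e2 : T S (fun n l m =>
        ((nm n : ℝ) : ℂ) * (Complex.I * dt (kc l) (H a s n) * dt (a l) (a m))) +
        T S (fun n l m =>
        ((nm n : ℝ) : ℂ) * (Complex.I * dt (kc m) (H a s n) * dt (a m) (a l))) = 0 := by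
      rw [← T_add, ← T_zero (S := S)]
      refine T_congr fun n l m hn _ hm => ?_
      beta_reduce
      have e3 : dt (kc l) (H a s n) + dt (kc m) (H a s n) = 0 := by
        rw [← dt_add_left, hm, kc_neg_add]
        have e4 : kc l + (-kc n - kc l) = (-1 : ℂ) • kc n := by
          rw [neg_one_smul]; abel
        rw [e4, dt_smul_left, H_div hHEL hS s hn, mul_zero]
      rw [dt_comm (a m) (a l)]
      linear_combination (((nm n : ℝ) : ℂ) * (Complex.I * dt (a l) (a m))) * e3
    rw [← e1] at e2
    have e5 : (2 : ℂ) * T S (fun n l m =>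
        ((nm n : ℝ) : ℂ) * (Complex.I * dt (kc l) (H a s n) * dt (a l) (a m))) = 0 := by
      linear_combination e2
    simpa using e5
  rw [h1, h2, h3, sub_zero]

/-- the basic sums -/
def B (S : Finset K3) (a : K3 → E3) (σ s : Bool) : ℂ :=
  T S fun n l m => ((nm n * nm l : ℝ) : ℂ) * D (H a σ l) (a m) (H a s n)

include hHEL hS ha in
theorem P_B (s : Bool) : P S a s = B S a true s - B S a false s := by
  rw [P_lamb hHEL hS ha s]
  unfold B
  rw [← T_sub]
  refine T_congr fun n l m _ hl _ => ?_
  beta_reduce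
  rw [vort hHEL hS ha hl, D_add1, D_smul1, D_smul1]
  push_cast
  ring

theorem B_swap (σ s : Bool) : B S a σ s = -B S a s σ := by
  unfold B
  rw [T_swap12, ← T_neg]
  refine T_congr fun n l m _ _ _ => ?_
  beta_reduce
  rw [D_swap13 (H a s l) (a m) (H a σ n)]
  push_cast
  ring

theorem B_self (s : Bool) : B S a s s = 0 := by
  have h := B_swap (S := S) (a := a) s s
  have h2 : (2 : ℂ) * B S a s s = 0 := by linear_combination h
  simpa using h2

include hHEL hS ha in
theorem total : P S a true + P S a false = -(2 * B S a false true) := by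
  rw [P_B hHEL hS ha true, P_B hHEL hS ha false, B_self, B_self, B_swap true false]
  ring

include hHEL hS ha in
theorem B_split : 2 * B S a false true =
    T S (fun n l m => ((nm l * (nm n - nm m) : ℝ) : ℂ) * D (H a false l) (H a true m) (H a true n)) +
    T S (fun n l m => ((nm n * (nm l - nm m) : ℝ) : ℂ) * D (H a false l) (H a false m) (H a true n)) := by
  have h0 : B S a false true =
      T S (fun n l m => ((nm n * nm l : ℝ) : ℂ) * D (H a false l) (H a true m) (H a true n)) +
      T S (fun n l m => ((nm n * nm l : ℝ) : ℂ) * D (H a false l) (H a false m) (H a true n)) := by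
    unfold B
    rw [← T_add]
    refine T_congr fun n l m _ _ _ => ?_
    beta_reduce
    rw [← mul_add, ← D_add2, H_sum hHEL hS ha]
  have h1 : T S (fun n l m => ((nm n * nm l : ℝ) : ℂ) * D (H a false l) (H a true m) (H a true n)) =
      -T S (fun n l m => ((nm m * nm l : ℝ) : ℂ) * D (H a false l) (H a true m) (H a true n)) := by
    rw [T_swap13, ← T_neg]
    · refine T_congr fun n l m _ _ _ => ?_
      beta_reduce
      rw [D_swap23 (H a false l) (H a true m) (H a true n)]
      ring
    · intro x y z hh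
      beta_reduce
      rcases hh with hh | hh | hh
      · rw [H_off ha true hh, D_zero3, mul_zero]
      · rw [H_off ha false hh, D_zero1, mul_zero]
      · rw [H_off ha true hh, D_zero2, mul_zero]
  have h2 : T S (fun n l m => ((nm n * nm l : ℝ) : ℂ) * D (H a false l) (H a false m) (H a true n)) =
      -T S (fun n l m => ((nm n * nm m : ℝ) : ℂ) * D (H a false l) (H a false m) (H a true n)) := by
    rw [T_swap23, ← T_neg]
    · refine T_congr fun n l m _ _ _ => ?_
      beta_reduce
      rw [D_swap12 (H a false l) (H a false m) (H a true n)]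
      ring
    · intro x y z hh
      beta_reduce
      rcases hh with hh | hh | hh
      · rw [H_off ha true hh, D_zero3, mul_zero]
      · rw [H_off ha false hh, D_zero1, mul_zero]
      · rw [H_off ha false hh, D_zero2, mul_zero]
  have h3 : T S (fun n l m => ((nm l * (nm n - nm m) : ℝ) : ℂ) *
      D (H a false l) (H a true m) (H a true n)) =
      T S (fun n l m => ((nm n * nm l : ℝ) : ℂ) * D (H a false l) (H a true m) (H a true n)) -
      T S (fun n l m => ((nm m * nm l : ℝ) : ℂ) * D (H a false l) (H a true m) (H a true n)) := by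
    rw [← T_sub]
    refine T_congr fun n l m _ _ _ => ?_
    beta_reduce
    push_cast
    ring
  have h4 : T S (fun n l m => ((nm n * (nm l - nm m) : ℝ) : ℂ) *
      D (H a false l) (H a false m) (H a true n)) =
      T S (fun n l m => ((nm n * nm l : ℝ) : ℂ) * D (H a false l) (H a false m) (H a true n)) -
      T S (fun n l m => ((nm n * nm m : ℝ) : ℂ) * D (H a false l) (H a false m) (H a true n)) := by
    rw [← T_sub]
    refine T_congr fun n l m _ _ _ => ?_
    beta_reduce
    push_cast
    ring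
  rw [h3, h4, h0]
  linear_combination h1 + h2

/-- the sums of the theorem -/
def U (S : Finset K3) (a : K3 → E3) (s : Bool) : ℝ :=
  T S fun x y z => nm z * |nm x - nm y| * ‖D (H a s x) (H a s y) (H a (!s) z)‖

include ha in
theorem U_van (s : Bool) : Van S fun x y z =>
    nm z * |nm x - nm y| * ‖D (H a s x) (H a s y) (H a (!s) z)‖ := by
  intro x y z hh
  beta_reduce
  rcases hh with hh | hh | hh
  · simp only [H_off ha s hh, D_zero1, norm_zero, mul_zero]
  · simp only [H_off ha s hh, D_zero2, norm_zero, mul_zero]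
  · simp only [H_off ha (!s) hh, D_zero3, norm_zero, mul_zero]

include ha in
theorem bd1 : ‖T S (fun n l m => ((nm l * (nm n - nm m) : ℝ) : ℂ) *
    D (H a false l) (H a true m) (H a true n))‖ ≤ U S a true := by
  refine (T_norm _).trans (le_of_eq ?_)
  unfold U
  rw [T_swap23 _ (U_van ha true)]
  refine T_congr fun n l m _ _ _ => ?_
  beta_reduce
  rw [norm_mul, Complex.norm_real, Real.norm_eq_abs, abs_mul, abs_of_nonneg (nm_nonneg l)]
  congr 1
  show _ = ‖D (H a true n) (H a true m) (H a false l)‖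
  rw [D_swap13 (H a false l) (H a true m) (H a true n), norm_neg]

include ha in
theorem bd2 : ‖T S (fun n l m => ((nm n * (nm l - nm m) : ℝ) : ℂ) *
    D (H a false l) (H a false m) (H a true n))‖ ≤ U S a false := by
  refine (T_norm _).trans (le_of_eq ?_)
  unfold U
  rw [T_swap13 _ (U_van ha false)]
  refine T_congr fun n l m _ _ _ => ?_
  beta_reduce
  rw [norm_mul, Complex.norm_real, Real.norm_eq_abs, abs_mul, abs_of_nonneg (nm_nonneg n),
    abs_sub_comm (nm l) (nm m)]
  congr 1
  show _ = ‖D (H a false m) (H a false l) (H a true n)‖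
  rw [D_swap12 (H a false l) (H a false m) (H a true n), norm_neg]

end main

/-- HD-TRI. -/
theorem tri (hHEL : S_HEL) : S_TRI := by
  intro S a hS ha
  have h1 : |Pr S 1 a| ≤ U S a true + U S a false := by
    rw [Pr_eq hHEL hS ha, total hHEL hS ha]
    refine (Complex.abs_re_le_norm _).trans ?_
    rw [norm_neg, B_split hHEL hS ha]
    exact (norm_add_le _ _).trans (add_le_add (bd1 ha) (bd2 ha))
  refine h1.trans (le_of_eq ?_)
  rw [Fintype.sum_bool]
  unfold U T
  congr 1
  · refine Finset.sum_congr rfl fun x _ => Finset.sum_congr rfl fun y _ => ?_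
    beta_reduce
    rw [nm_neg]
    rfl
  · refine Finset.sum_congr rfl fun x _ => Finset.sum_congr rfl fun y _ => ?_
    beta_reduce
    rw [nm_neg]
    rfl

end

end Pool.Agent.W143.HD
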